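import Mathlib

set_option autoImplicit false

namespace Pool.Agent.Results.MP_b9ac25_al.P1P2

open scoped commutatorElement

universe u v

/-- `C j G` is the term `C^j G` of the lower central series: `C^1 G = G`,
`C^{j+1} G = [G, C^j G]` (and `C^0 G = G`, an unused value). -/
def C (G : Type*) [Group G] : ℕ → Subgroup G
  | 0 => ⊤
  | 1 => ⊤
  | j + 2 => ⁅(⊤ : Subgroup G), C G (j + 1)⁆

lemma C_eq (G : Type*) [Group G] (j : ℕ) : C G (j + 1) = (⊤ : Subgroup G).lowerCentralSeries j := by
  induction j with
  | zero => rfl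
  | succ j ih => rw [C, ih, Subgroup.commutator_comm]; rfl

instance C_normal (G : Type*) [Group G] (j : ℕ) : (C G j).Normal := by
  cases j with
  | zero => exact (inferInstance : (⊤ : Subgroup G).Normal)
  | succ j => rw [C_eq]; infer_instance

lemma C_le {G H : Type*} [Group G] [Group H] (φ : G →* H) (j : ℕ) : C G j ≤ (C H j).comap φ := by
  cases j with
  | zero => exact fun _ _ => Subgroup.mem_top _
  | succ j =>
    rw [C_eq, C_eq, ← Subgroup.map_le_iff_le_comap, Subgroup.map_lowerCentralSeries]
    exact Subgroup.lowerCentralSeries_mono _ le_top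

/-- The map `G/C^j G → H/C^j H` induced by `φ : G → H`. -/
def induced {G H : Type*} [Group G] [Group H] (φ : G →* H) (j : ℕ) : G ⧸ C G j →* H ⧸ C H j :=
  QuotientGroup.map _ _ φ (C_le φ j)

lemma step {N : Type*} [Group N] (f : N →* N) (hf : ∀ x, f x * x⁻¹ ∈ commutator N) (i : ℕ) :
    ∀ x ∈ (⊤ : Subgroup N).lowerCentralSeries i,
      f x * x⁻¹ ∈ (⊤ : Subgroup N).lowerCentralSeries (i + 1) := by
  induction i with
  | zero => exact fun x _ => hf x
  | succ i ih =>
    let π := QuotientGroup.mk' ((⊤ : Subgroup N).lowerCentralSeries (i + 2))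
    have hcen : ∀ g ∈ (⊤ : Subgroup N).lowerCentralSeries (i + 1), ∀ h, Commute (π g) (π h) := by
      intro g hg h
      rw [← commutatorElement_eq_one_iff_commute, ← map_commutatorElement]
      exact (QuotientGroup.eq_one_iff _).mpr
        (Subgroup.commutator_mem_commutator hg (Subgroup.mem_top h))
    intro g hg
    suffices h : π (f g) = π g from
      (QuotientGroup.eq_one_iff _).mp (show π _ = 1 by rw [map_mul, h, map_inv, mul_inv_cancel])
    rw [Subgroup.mem_lowerCentralSeries_succ_iff] at hg
    induction hg using Subgroup.closure_induction with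
    | one => rw [map_one]
    | mul x y _ _ h1 h2 => rw [map_mul, map_mul, h1, h2, map_mul]
    | inv x _ h => rw [map_inv, map_inv, h, map_inv]
    | mem x hx =>
      obtain ⟨a, ha, b, -, rfl⟩ := hx
      have hab : ∀ b, ⁅a, b⁆ ∈ (⊤ : Subgroup N).lowerCentralSeries (i + 1) := fun b =>
        Subgroup.commutator_mem_commutator ha (Subgroup.mem_top b)
      let g : N →* N ⧸ (⊤ : Subgroup N).lowerCentralSeries (i + 2) :=
        MonoidHom.mk' (fun b => π ⁅a, b⁆) (by
          intro b c
          have : ⁅a, b * c⁆ = ⁅a, b⁆ * (b * ⁅a, c⁆ * b⁻¹) := by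
            simp only [commutatorElement_def]; group
          rw [this, map_mul, map_mul, map_mul, ← (hcen _ (hab c) b).eq, map_inv,
            mul_inv_cancel_right])
      have hg : commutator N ≤ g.ker := by
        rw [commutator_def, Subgroup.commutator_le]
        intro x _ y _
        rw [MonoidHom.mem_ker, map_commutatorElement, commutatorElement_eq_one_iff_commute]
        exact hcen _ (hab x) ⁅a, y⁆
      have h1 : g (f b) = g b := by
        have := hg (hf b)
        rwa [MonoidHom.mem_ker, map_mul, map_inv, mul_inv_eq_one] at this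
      have h2 : ⁅f a, f b⁆ = (f a * a⁻¹) * (⁅a, f b⁆ * f b) * (f a * a⁻¹)⁻¹ * (f b)⁻¹ := by
        simp only [commutatorElement_def]; group
      change π (f ⁅a, b⁆) = g b
      rw [← h1, map_commutatorElement, h2, map_mul, map_mul, map_mul π (f a * a⁻¹),
        (hcen _ (ih a ha) _).eq, map_inv, mul_inv_cancel_right, ← map_mul, mul_inv_cancel_right]
      rfl

lemma bij {N : Type*} [Group N] (c : ℕ) (hc : (⊤ : Subgroup N).lowerCentralSeries c = ⊥)
    (f : N →* N) (hf : ∀ x, f x * x⁻¹ ∈ commutator N) : Function.Bijective f := by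
  constructor
  · rw [injective_iff_map_eq_one]
    intro x hx
    have : ∀ i, x ∈ (⊤ : Subgroup N).lowerCentralSeries i := by
      intro i
      induction i with
      | zero => exact Subgroup.mem_top x
      | succ i ih =>
        have := step f hf i x ih
        rwa [hx, one_mul, inv_mem_iff] at this
    exact hc.le (this c)
  · have : ∀ k i, i + k = c → (⊤ : Subgroup N).lowerCentralSeries i ≤ f.range := by
      intro k
      induction k with
      | zero => rintro i rfl; rw [add_zero] at hc; rw [hc]; exact bot_le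
      | succ k ih =>
        intro i hi x hx
        have h1 := ih (i + 1) (by omega) (step f hf i x hx)
        have h2 := f.range.mul_mem (f.range.inv_mem h1) ⟨x, rfl⟩
        simpa using h2
    exact fun x => this c 0 (zero_add c) (Subgroup.mem_top x)

lemma map_comm {G H : Type*} [Group G] [Group H] (φ : G →* H) {x : G} (hx : x ∈ commutator G) :
    φ x ∈ commutator H := C_le φ 2 hx

/-- Every group with property (P1) has property (P2), with the same free group. -/
theorem result (Γ : Type u) [Group Γ] (X : Type v)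
    (h : ∀ j, 1 ≤ j → Nonempty (Γ ⧸ C Γ j ≃* FreeGroup X ⧸ C (FreeGroup X) j)) :
    ∃ φ : FreeGroup X →* Γ, ∀ j, 1 ≤ j → Function.Bijective (induced φ j) := by
  obtain ⟨θ₂⟩ := h 2 (by omega)
  choose g hg using fun x : X =>
    QuotientGroup.mk'_surjective (C Γ 2) (θ₂.symm (QuotientGroup.mk' _ (FreeGroup.of x)))
  let φ : FreeGroup X →* Γ := FreeGroup.lift g
  have hφ : ∀ w, QuotientGroup.mk' (C Γ 2) (φ w) = θ₂.symm (QuotientGroup.mk' _ w) := by
    intro w
    have : (QuotientGroup.mk' (C Γ 2)).comp φ =
        θ₂.symm.toMonoidHom.comp (QuotientGroup.mk' _) := by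
      ext x
      simpa [φ] using hg x
    exact DFunLike.congr_fun this w
  refine ⟨φ, fun j hj => ?_⟩
  obtain ⟨θ⟩ := h j hj
  obtain ⟨j, rfl⟩ : ∃ i, j = i + 1 := ⟨j - 1, by omega⟩
  set N := FreeGroup X ⧸ C (FreeGroup X) (j + 1)
  let p : FreeGroup X →* N := QuotientGroup.mk' _
  let q : Γ →* Γ ⧸ C Γ (j + 1) := QuotientGroup.mk' _
  have hp : Function.Surjective p := QuotientGroup.mk'_surjective _
  have hq : Function.Surjective q := QuotientGroup.mk'_surjective _
  have hN : (⊤ : Subgroup N).lowerCentralSeries j = ⊥ := by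
    rw [← MonoidHom.range_eq_top.mpr hp, MonoidHom.range_eq_map,
      ← Subgroup.map_lowerCentralSeries, ← C_eq, Subgroup.map_eq_bot_iff]
    exact (QuotientGroup.ker_mk' _).ge
  let ψ : N →* N := θ.toMonoidHom.comp (induced φ (j + 1))
  have hψ : ∀ w, ψ (p w) = θ (q (φ w)) := fun w => rfl
  suffices hb : Function.Bijective ψ from
    (Function.Bijective.of_comp_iff' θ.bijective _).mp hb
  rcases j with _ | j
  · have : Subsingleton N := ⟨fun a b => by
      have h1 := hN.le (Subgroup.mem_top a)
      have h2 := hN.le (Subgroup.mem_top b)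
      rw [Subgroup.mem_bot] at h1 h2
      rw [h1, h2]⟩
    exact ⟨fun a b _ => Subsingleton.elim a b, fun a => ⟨a, Subsingleton.elim _ _⟩⟩
  have ha : ∀ n : N, ∃ y, ψ y * n⁻¹ ∈ commutator N := by
    intro n
    obtain ⟨a, ha⟩ := hq (θ.symm n)
    obtain ⟨w, hw⟩ := QuotientGroup.mk'_surjective _ (θ₂ (QuotientGroup.mk' _ a))
    have h1 : φ w * a⁻¹ ∈ commutator Γ := by
      refine (QuotientGroup.eq_one_iff (N := C Γ 2) _).mp (show QuotientGroup.mk' _ _ = 1 from ?_)
      rw [map_mul, hφ, hw, map_inv, MulEquiv.symm_apply_apply, mul_inv_cancel]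
    refine ⟨p w, ?_⟩
    have := map_comm θ.toMonoidHom (map_comm q h1)
    simpa [ha, hψ] using this
  have hb : ∀ y : N, ψ y ∈ commutator N → y ∈ commutator N := by
    intro y hy
    obtain ⟨w, rfl⟩ := hp y
    have h1 := map_comm θ.symm.toMonoidHom hy
    rw [hψ, MulEquiv.toMonoidHom_eq_coe, MonoidHom.coe_coe, MulEquiv.symm_apply_apply,
      commutator_def, ← MonoidHom.range_eq_top.mpr hq, MonoidHom.range_eq_map,
      ← Subgroup.map_commutator] at h1
    obtain ⟨a, ha, h2⟩ := h1
    have h3 : a⁻¹ * φ w ∈ commutator Γ := by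
      have := QuotientGroup.eq.mp h2
      rw [C_eq] at this
      exact Subgroup.lowerCentralSeries_antitone _ (Nat.le_add_left 1 j) this
    have h4 : φ w ∈ C Γ 2 := by
      have := (commutator Γ).mul_mem ha h3
      rwa [mul_inv_cancel_left] at this
    have h5 := hφ w
    rw [show QuotientGroup.mk' (C Γ 2) (φ w) = 1 from (QuotientGroup.eq_one_iff _).mpr h4,
      eq_comm, MulEquiv.map_eq_one_iff] at h5
    exact map_comm p ((QuotientGroup.eq_one_iff (N := C _ 2) _).mp h5)
  choose y hy using fun x : X => ha (p (FreeGroup.of x))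
  let β : N →* N := QuotientGroup.lift _ (FreeGroup.lift y) (by
    intro w hw
    have := C_le (FreeGroup.lift y) _ hw
    rw [Subgroup.mem_comap, C_eq N, hN] at this
    exact this)
  have h1 : ∀ n, (ψ.comp β) n * n⁻¹ ∈ commutator N := by
    intro n
    obtain ⟨w, rfl⟩ := hp n
    have : (Abelianization.of.comp (ψ.comp β)).comp p = Abelianization.of.comp p := by
      ext x
      have := hy x
      rw [← Abelianization.ker_of, MonoidHom.mem_ker, map_mul, map_inv, mul_inv_eq_one] at this
      rw [← FreeGroup.lift_apply_of (f := y)] at this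
      exact this
    rw [← Abelianization.ker_of, MonoidHom.mem_ker, map_mul, map_inv, mul_inv_eq_one]
    exact DFunLike.congr_fun this w
  have h2 : ∀ n, (β.comp ψ) n * n⁻¹ ∈ commutator N := fun n => hb _ (by
    rw [map_mul, map_inv]; exact h1 (ψ n))
  exact ⟨Function.Injective.of_comp (f := β) (bij _ hN _ h2).1,
    Function.Surjective.of_comp (g := β) (bij _ hN _ h1).2⟩

end Pool.Agent.Results.MP_b9ac25_al.P1P2
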